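import Pool.Agent.helper67IM.Main

/-!
# Verbitskii's question: one inner function for all exponents in `[4/3, 4]`

`tc f n` is the `n`-th Taylor coefficient `f^(n)(0) / n!`.
-/

set_option autoImplicit false

namespace Pool.Agent.Results.MP_58366f_an.IntervalOfExponents

open Pool.Agent.helper67IM

/-- an inner function on the open unit disc: holomorphic, bounded by `1`, with radial limits of
modulus `1` almost everywhere -/
def IsInner (F : ℂ → ℂ) : Prop :=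
  DifferentiableOn ℂ F (Metric.ball (0 : ℂ) 1) ∧
  (∀ z ∈ Metric.ball (0 : ℂ) 1, ‖F z‖ ≤ 1) ∧
  ∀ᵐ θ : ℝ ∂MeasureTheory.volume, ∃ w : ℂ, ‖w‖ = 1 ∧
    Filter.Tendsto (fun r : ℝ => F ((r : ℂ) * Complex.exp ((θ : ℂ) * Complex.I)))
      (nhdsWithin (1 : ℝ) (Set.Iio 1)) (nhds w)

/-- an interpolating Blaschke product (up to a unimodular constant): an inner function whose
logarithmic means tend to `0` (a Blaschke product) and with `(1 - |z|²) |B'(z)| ≥ δ > 0` at its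
zeros (Carleson's condition) -/
def IsInterpolatingBlaschke (B : ℂ → ℂ) : Prop :=
  IsInner B ∧
  Filter.Tendsto
    (fun r : ℝ => ∫ θ in (0 : ℝ)..(2 * Real.pi),
      Real.log ‖B ((r : ℂ) * Complex.exp ((θ : ℂ) * Complex.I))‖)
    (nhdsWithin (1 : ℝ) (Set.Iio 1)) (nhds 0) ∧
  ∃ δ : ℝ, 0 < δ ∧ ∀ z ∈ Metric.ball (0 : ℂ) 1, B z = 0 →
    δ ≤ (1 - ‖z‖ ^ 2) * ‖deriv B z‖

/-- a Carleson-Blaschke product: a finite product of interpolating ones -/
def IsCarlesonBlaschke (F : ℂ → ℂ) : Prop :=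
  ∃ (N : ℕ) (B : Fin N → ℂ → ℂ) (c : ℂ), ‖c‖ = 1 ∧ (∀ j, IsInterpolatingBlaschke (B j)) ∧
    ∀ z ∈ Metric.ball (0 : ℂ) 1, F z = c * ∏ j : Fin N, B j z

/-- There are an inner function `G`, not a Carleson-Blaschke product, and a constant `K` such that
for **all** `p ∈ [4/3, 4]`:
(1) convolution with the sequence `ĝ n` (`n ∈ ℤ`; Taylor coefficients of `G` for `n ≥ 0`, `0` for
`n < 0`) has norm at most `K` on the finitely supported sequences over `ℤ` in `ℓ^p`, so `G ∈ M_p A`;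
(2) if the Taylor coefficients of a holomorphic function `f` on the disc are in `ℓ^p`, then so are
those of `G f`, with norm at most `K` times as large. -/
theorem result : ∃ (G : ℂ → ℂ) (K : ℝ), IsInner G ∧ ¬ IsCarlesonBlaschke G ∧
    (∀ p : ℝ, 4 / 3 ≤ p → p ≤ 4 → ∀ (N S : Finset ℤ) (a : ℤ → ℂ),
      ∑ n ∈ N, ‖∑ k ∈ S, (if 0 ≤ n - k then tc G (n - k).toNat else 0) * a k‖ ^ p ≤
        K ^ p * ∑ k ∈ S, ‖a k‖ ^ p) ∧
    ∀ p : ℝ, 4 / 3 ≤ p → p ≤ 4 →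
      ∀ f : ℂ → ℂ, DifferentiableOn ℂ f (Metric.ball (0 : ℂ) 1) →
        Summable (fun n : ℕ => ‖tc f n‖ ^ p) →
        Summable (fun n : ℕ => ‖tc (fun z => G z * f z) n‖ ^ p) ∧
          ∑' n, ‖tc (fun z => G z * f z) n‖ ^ p ≤ K ^ p * ∑' n, ‖tc f n‖ ^ p := by
  obtain ⟨G, K, hK, hG1, hG2, hG3, hG4, hG5⟩ := exists_inner
  refine ⟨G, K, ⟨hG1, hG2, hG3⟩, ?_, fun p h1 h2 N S a => conv_all (tc G) K hK hG4 p h1 h2 N S a,
    fun p h1 h2 f hf hs => mult_all hG1 K hK hG4 p h1 h2 f hf hs⟩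
  rintro ⟨N, B, c, hc, hB, hprod⟩
  obtain ⟨M, hM⟩ := cluster_contra N B (fun j => (hB j).1.1) (fun j => (hB j).1.2.1)
    (fun j => (hB j).2.2)
  obtain ⟨z, hz1, hz2, hz3, hz4⟩ := hG5 M
  refine hM z hz1 hz2 hz4 fun i => ?_
  have hzi : z i ∈ Metric.ball (0 : ℂ) 1 := by simpa using hz2 i
  have h1 := hprod (z i) hzi
  rw [hz3 i] at h1
  have hc0 : c ≠ 0 := by intro h0; rw [h0] at hc; simp at hc
  exact (mul_eq_zero.1 h1.symm).resolve_left hc0

end Pool.Agent.Results.MP_58366f_an.IntervalOfExponents
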